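import Pool.Agent.Helper18_X2.Stmts

/-!
Squad x2, module CLA: the simple groups involved in a fixed group are a closed family.
-/

set_option autoImplicit false

namespace Pool.Agent.PP.X2.H47

open Pool.Agent.Helper51_AWC Pool.Agent.Helper79_WRA Pool.Agent.PP

theorem invA_of_involves (ℓ : ℕ) (G A : Type) [Group G] [Group A] (h : Involves G A) :
    InvA ℓ (fun S _ _ => Involves G S) A := by
  intro T _ _ hT hlT hinv
  obtain ⟨B, g, hg⟩ := h
  exact Involves.of_subgroup (Involves.of_surjective g hg hinv)

theorem cla : ClaStmt := by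
  intro ℓ _ G _ _ S _ _ hS hl hSA Q hQ hp hint
  right; right
  intro T _ _ hT hlT hinv
  exact invA_of_involves ℓ G S hSA T hT hlT (Involves.of_subgroup hinv)

end Pool.Agent.PP.X2.H47
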