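import Pool.Agent.Helper18_X2.Stmts

/-!
Squad x2, module CLM: groups which are central extensions of a member of the family.
-/

set_option autoImplicit false

namespace Pool.Agent.PP.X2.H47

open Pool.Agent.Helper51_AWC Pool.Agent.Helper79_WRA Pool.Agent.PP

theorem covS_equiv {K L S : Type} [Group K] [Group L] [Group S] (e : K ≃* L) (h : CovS K S) :
    CovS L S := by
  obtain ⟨h1, f, hf, hk⟩ := h
  refine ⟨?_, f.comp e.symm.toMonoidHom, hf.comp e.symm.surjective, ?_⟩
  · have h2 : (commutator K).map e.toMonoidHom = ⊤ := by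
      rw [h1, ← MonoidHom.range_eq_map]
      exact MonoidHom.range_eq_top.2 e.surjective
    rw [commutator_def, Subgroup.map_commutator, ← MonoidHom.range_eq_map,
      MonoidHom.range_eq_top.2 (show Function.Surjective e.toMonoidHom from e.surjective)] at h2
    rw [commutator_def]
    exact h2
  · intro x hx
    have h3 : e.symm x ∈ f.ker := hx
    have h4 := hk h3
    rw [Subgroup.mem_center_iff] at h4 ⊢
    intro g
    have h5 := h4 (e.symm g)
    rw [← map_mul, ← map_mul] at h5
    exact e.symm.injective h5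

theorem clm (hq : QmcStmt) : ClmStmt := by
  intro ℓ _ 𝒜 S _ _ hS hl hSA H _ _ N hN hf
  obtain ⟨f, hf, hk⟩ := hf
  have hcov := (hq N S hS f hf hk).1
  have hmap : (commutator N).map N.subtype = ⁅N, N⁆ := by
    rw [commutator_def, Subgroup.map_commutator, ← MonoidHom.range_eq_map, Subgroup.range_subtype]
  have hcov' : CovS (⁅N, N⁆ : Subgroup H) S := by
    have h1 : CovS ((commutator N).map N.subtype) S :=
      covS_equiv ((commutator N).equivMapOfInjective N.subtype N.subtype_injective) hcov
    rw [hmap] at h1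
    exact h1
  refine ⟨⁅N, N⁆, Subgroup.commutator_normal N N, Subgroup.commutator_le_left N N, ?_, ?_⟩
  · refine ⟨Unit, inferInstance, fun _ => ⁅N, N⁆, ?_, ?_, ?_⟩
    · intro i j hij
      exact absurd (Subsingleton.elim i j) hij
    · exact ciSup_unique
    · intro i
      exact ⟨S, inferInstance, inferInstance, hS, hl, hSA, hcov'⟩
  · intro S' _ _ hS' _ K' hK' g hg hg1
    exfalso
    obtain ⟨-, s, t, hst⟩ := hS'
    obtain ⟨x, rfl⟩ := hg s
    obtain ⟨y, rfl⟩ := hg t
    apply hst
    have h1 := hg1 (x * y * x⁻¹ * y⁻¹) (by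
      exact Subgroup.commutator_mem_commutator (hK' x.2) (hK' y.2))
    rw [map_mul, map_mul, map_mul, map_inv, map_inv] at h1
    rw [mul_inv_eq_one, mul_inv_eq_iff_eq_mul] at h1
    exact h1

end Pool.Agent.PP.X2.H47
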